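import Pool.Agent.Work.MP_058ed1_gt.G.Endgame2
import Pool.Agent.Work.MP_058ed1_gt.D.Zero

/-!
# Zero in the spectrum and amenable subgroups of codimension one

`X` is a connected smooth Riemannian manifold on which a group `G` acts properly discontinuously
and cocompactly by isometries (for a closed Riemannian manifold `M`: its universal covering, with
`G = π₁(M)`).  If some amenable subgroup `C` of `G` is such that `X/C` has at least two ends, then
`0` is in the spectrum of the (minimal closure of the) Hodge Laplacian on `1`-forms of `X`.
-/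

open scoped Manifold ContDiff Topology Bundle ENNReal NNReal
open Set MeasureTheory Bundle

noncomputable section

namespace Pool.Agent.Results.MP_058ed1_gt.AmenableCodimOne

open Pool.Agent.ZSp

attribute [-instance] MeasAux.isOne in
theorem result {E G X : Type*} [NormedAddCommGroup E] [InnerProductSpace ℝ E]
    [FiniteDimensional ℝ E] [Group G] [EMetricSpace X] [ChartedSpace E X]
    [IsManifold 𝓘(ℝ, E) ∞ X] [RiemannianBundle (fun x : X => TangentSpace 𝓘(ℝ, E) x)]
    [IsContMDiffRiemannianBundle 𝓘(ℝ, E) ∞ E (fun x : X => TangentSpace 𝓘(ℝ, E) x)]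
    [IsRiemannianManifold 𝓘(ℝ, E) X] [MeasurableSpace X] [BorelSpace X] [ConnectedSpace X]
    [MulAction G X] (hA : IsomAction E G X) (C : Subgroup G) (hC : Folner C)
    (hE : TwoEnds C X) : ZeroSpec E X 1 := by
  by_contra h
  exact endgame hA C hC hE (hodgeProp_of_not_zeroInSpec fun h' => h (zeroSpec_of_zeroInSpec h'))

end Pool.Agent.Results.MP_058ed1_gt.AmenableCodimOne
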