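import Pool.Agent.Work.MP_058ed1_gt.I.Fin

/-!
# Zero in the spectrum and the intersection form of amenable quotients

`X` is a smooth Riemannian manifold (for a closed Riemannian manifold `M`: its universal covering)
and `C` is an amenable group acting properly discontinuously by isometries on `X` (for `M`: an
amenable subgroup of `π₁(M)`).  If `X/C` has a closed `p`-form `τ` and a coclosed `p`-form `ρ` with
compact supports and `∫_{X/C} ⟨τ, ρ⟩ ≠ 0`, `p ≥ 1`, then `0` is in the spectrum of the (minimal
closure of the) Hodge Laplacian on `p`-forms of `X`.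
-/

open scoped Manifold ContDiff Topology Bundle ENNReal NNReal
open Set MeasureTheory Bundle

noncomputable section

namespace Pool.Agent.Results.MP_058ed1_gt.AmenableIntersection

open Pool.Agent.ZSp Pool.Agent.ZSpI

attribute [-instance] MeasAux.isOne in
theorem result {E C X : Type*} [NormedAddCommGroup E] [InnerProductSpace ℝ E]
    [FiniteDimensional ℝ E] [Group C] [EMetricSpace X] [ChartedSpace E X]
    [IsManifold 𝓘(ℝ, E) ∞ X] [RiemannianBundle (fun x : X => TangentSpace 𝓘(ℝ, E) x)]
    [IsContMDiffRiemannianBundle 𝓘(ℝ, E) ∞ E (fun x : X => TangentSpace 𝓘(ℝ, E) x)]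
    [IsRiemannianManifold 𝓘(ℝ, E) X] [MeasurableSpace X] [BorelSpace X]
    [MulAction C X] (hA : DiscAction E C X) (hC : Amenable C) (p : ℕ)
    (τ ρ : PForm E X (p + 1)) (φ : X → ℝ) (h : Pairing E C τ ρ φ) : ZeroSpec E X (p + 1) := by
  by_contra h'
  exact endgamePair hA hC h (hodgeProp_of_not_zeroInSpec fun h'' => h' (zeroSpec_of_zeroInSpec h''))

end Pool.Agent.Results.MP_058ed1_gt.AmenableIntersection
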