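import Pool.Agent.Work.MP_058ed1_gt.T.Main

/-!
# Zero in the spectrum passes from the mirror of a reflection to the whole manifold

`X` is a smooth Riemannian manifold with a reflection whose mirror is the Riemannian manifold `H`
(of dimension one less), with a uniform collar.  If `0` is in the approximate point spectrum of
the (minimal closure of the) Hodge Laplacian on `p`-forms of `H`, then `0` is in the spectrum of
the (minimal closure of the) Hodge Laplacian on `q`-forms of `X` for some `q` in `p, p+1, p+2`.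
-/

open scoped Manifold ContDiff Topology Bundle ENNReal NNReal
open Set MeasureTheory Bundle

noncomputable section

namespace Pool.Agent.Results.MP_058ed1_gt.MirrorTransfer

open Pool.Agent.ZSp

attribute [-instance] MeasAux.isOne in
theorem result {E X : Type*} [NormedAddCommGroup E] [InnerProductSpace ℝ E]
    [FiniteDimensional ℝ E] [EMetricSpace X] [ChartedSpace E X]
    [IsManifold 𝓘(ℝ, E) ∞ X] [RiemannianBundle (fun x : X => TangentSpace 𝓘(ℝ, E) x)]
    [IsContMDiffRiemannianBundle 𝓘(ℝ, E) ∞ E (fun x : X => TangentSpace 𝓘(ℝ, E) x)]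
    [IsRiemannianManifold 𝓘(ℝ, E) X] [MeasurableSpace X] [BorelSpace X]
    {E' H : Type*} [NormedAddCommGroup E'] [InnerProductSpace ℝ E']
    [FiniteDimensional ℝ E'] [EMetricSpace H] [ChartedSpace E' H]
    [IsManifold 𝓘(ℝ, E') ∞ H] [RiemannianBundle (fun x : H => TangentSpace 𝓘(ℝ, E') x)]
    [IsContMDiffRiemannianBundle 𝓘(ℝ, E') ∞ E' (fun x : H => TangentSpace 𝓘(ℝ, E') x)]
    [IsRiemannianManifold 𝓘(ℝ, E') H] [MeasurableSpace H] [BorelSpace H]
    (hd : Module.finrank ℝ E = Module.finrank ℝ E' + 1)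
    {s : X → X} {τ : X → ℝ} {r : ℝ} {Γ : H → ℝ → X} {ρ : X → H} (h : Mirror E E' s τ r Γ ρ)
    {p : ℕ} (hp : ZeroApprox E' H p) : ∃ q, p ≤ q ∧ q ≤ p + 2 ∧ ZeroSpec E X q :=
  h.exists_zeroSpec hd hp

end Pool.Agent.Results.MP_058ed1_gt.MirrorTransfer
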