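import Pool.Agent.Work.MP_058ed1_gt.C.Main

/-!
# Zero in the spectrum and reflections with a common fixed point

`X` is a smooth Riemannian manifold of dimension `n` (not necessarily complete, with or without
symmetries other than the following ones): there are `n` commuting reflections of `X`, with bounded
derivatives, whose mirrors meet in a point.  Then `0` is in the spectrum of the (minimal closure of
the) Hodge Laplacian on `p`-forms of `X` for some `p ≤ n`.
-/

open scoped Manifold ContDiff Topology Bundle ENNReal NNReal
open Set MeasureTheory Bundle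

noncomputable section

namespace Pool.Agent.Results.MP_058ed1_gt.ReflectionCorner

open Pool.Agent.ZSp

attribute [-instance] MeasAux.isOne in
theorem result {E X : Type*} [NormedAddCommGroup E] [InnerProductSpace ℝ E]
    [FiniteDimensional ℝ E] [EMetricSpace X] [ChartedSpace E X]
    [IsManifold 𝓘(ℝ, E) ∞ X] [RiemannianBundle (fun x : X => TangentSpace 𝓘(ℝ, E) x)]
    [IsContMDiffRiemannianBundle 𝓘(ℝ, E) ∞ E (fun x : X => TangentSpace 𝓘(ℝ, E) x)]
    [IsRiemannianManifold 𝓘(ℝ, E) X] [MeasurableSpace X] [BorelSpace X]
    {n : ℕ} (hn : Module.finrank ℝ E = n) {s : Fin n → X → X} {τ : Fin n → X → ℝ} {v : X}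
    (h : Corner E s τ v) : ∃ p ≤ n, ZeroSpec E X p :=
  h.exists_zeroSpec hn

end Pool.Agent.Results.MP_058ed1_gt.ReflectionCorner
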